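import Pool.Agent.H14.TOW.Targets

/-!
# RVR: the value of a rational expression at a place
-/

set_option autoImplicit false

open MvPolynomial Pool.Agent.H14.TOW

namespace Pool.Agent.H50.TOW

section

variable {k K κ : Type} [Field k] [Field K] [Algebra k K] [Field κ] [Algebra k κ]

theorem rv_mem {O : Subalgebra k K} (ρ : O →ₐ[k] κ) {a : K} (h : a ∈ O) :
    rv O ρ a = ρ ⟨a, h⟩ := by
  unfold rv
  rw [dif_pos h]

theorem rv_mul' {O : Subalgebra k K} (ρ : O →ₐ[k] κ) {a b : K} (ha : a ∈ O) (hb : b ∈ O) :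
    rv O ρ (a * b) = rv O ρ a * rv O ρ b := by
  rw [rv_mem ρ ha, rv_mem ρ hb, rv_mem ρ (O.mul_mem ha hb), ← map_mul]
  rfl

end

theorem pf_RVR : T_RVR := by
  intro k K κ _ _ _ _ _ σ O ρ τ hP
  refine ⟨?_, ?_, ?_⟩
  · intro L y hy c
    have h1 : aeval y c = ((aeval (fun i => (⟨y i, hy i⟩ : O)) c : O) : K) := by
      have h2 := comp_aeval_apply (f := fun i => (⟨y i, hy i⟩ : O)) O.val c
      exact h2.symm
    have h3 : aeval y c ∈ O := by
      rw [h1]
      exact SetLike.coe_mem _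
    refine ⟨h3, ?_⟩
    rw [rv_mem ρ h3]
    have h4 : (⟨aeval y c, h3⟩ : O) = aeval (fun i => (⟨y i, hy i⟩ : O)) c := Subtype.ext h1
    rw [h4, comp_aeval_apply]
    congr 1
    congr 1
    funext i
    rw [rv_mem ρ (hy i)]
  · intro a b ha hb
    refine ⟨O.mul_mem ha hb, rv_mul' ρ ha hb, O.sub_mem ha hb, ?_⟩
    rw [rv_mem ρ ha, rv_mem ρ hb, rv_mem ρ (O.sub_mem ha hb), ← map_sub]
    rfl
  · intro a b c hb hc habc
    have hb0 : b ≠ 0 := by
      rintro rfl
      apply hb.2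
      rw [rv_mem ρ hb.1]
      exact map_zero ρ
    have hbi : b⁻¹ ∈ O := hP.unit b hb.1 hb.2
    have ha : a ∈ O := by
      have h1 : a = c * b⁻¹ := by
        rw [← habc, mul_assoc, mul_inv_cancel₀ hb0, mul_one]
      rw [h1]
      exact O.mul_mem hc hbi
    exact ⟨ha, by rw [← rv_mul' ρ ha hb.1, habc]⟩

end Pool.Agent.H50.TOW
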